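import Mathlib
import Pool.Agent.H538Z.Defs
import Pool.Agent.H538Z.Edge

set_option autoImplicit false

namespace Pool.Agent.Results.MP_e9bb92_al.ALinearPowers

open Pool.Agent.H538Z

/-- For gap-free graphs all powers from `reg I - 1` on have a linear resolution. -/
theorem result :
    ∀ (K : Type) [Field K] (m : ℕ) (G : SimpleGraph (Fin m)), (∃ a b, G.Adj a b) →
      GapFree G → ∀ s : ℕ, reg (edgeIdeal K G) - 1 ≤ s → reg (edgeIdeal K G ^ s) = 2 * s := by
  intro K _ n G hG hg q hq
  have := L2_lt (K := K) hG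
  rw [reg_one hG] at hq
  rw [reg_pow hG (by omega), L2_gapFree hG hg]
  omega

end Pool.Agent.Results.MP_e9bb92_al.ALinearPowers
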